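import Pool.Agent.MP_c05c30_lc.Semi

namespace Pool.Agent.MP_c05c30_lc

open FirstOrder FirstOrder.Language MonoidAlgebra

section transfer

variable {P A A' : Type} [Field P] [Ring A] [Algebra P A] [Ring A'] [Algebra P A']

def embOfAlgHom (φ : A →ₐ[P] A') (h : Function.Injective φ) :
    @Language.Embedding (algebraLang P) A A' (algebraStr P A) (algebraStr P A') :=
  let _ := algebraStr P A
  let _ := algebraStr P A'
  { toFun := φ
    inj' := h
    map_fun' := fun {n} g x => by
      cases g
      · exact map_add φ _ _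
      · exact map_mul φ _ _
      · exact map_neg φ _
      · exact map_zero φ
      · exact map_smul φ _ _
    map_rel' := fun r => r.elim }

def equivOfAlgEquiv (φ : A ≃ₐ[P] A') :
    @Language.Equiv (algebraLang P) A A' (algebraStr P A) (algebraStr P A') :=
  let _ := algebraStr P A
  let _ := algebraStr P A'
  { toEquiv := φ.toEquiv
    map_fun' := fun {n} g x => by
      cases g
      · exact map_add φ _ _
      · exact map_mul φ _ _
      · exact map_neg φ _
      · exact map_zero φ
      · exact map_smul φ _ _
    map_rel' := fun r => r.elim }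

end transfer

variable (P : Type) [Field P]

open SG

noncomputable def gEl (B : Type) : MonoidAlgebra P (SG B) :=
  single SG.one 1 - single f 1 + single z 1

noncomputable def swapFun : SG ℕ → MonoidAlgebra P (SG ℕ)
  | z => single z 1
  | SG.one => single SG.one 1
  | f => gEl P ℕ
  | a n => single (b n) 1
  | b n => single (a n) 1

noncomputable def swapHom : SG ℕ →* MonoidAlgebra P (SG ℕ) where
  toFun := swapFun P
  map_one' := rfl
  map_mul' x y := by
    cases x <;> cases y <;>
      simp only [SG.mul_def, SG.mul, swapFun, gEl, mul_add, add_mul, mul_sub, sub_mul,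
        single_mul_single, mul_one] <;>
      first
      | rfl
      | (split_ifs <;> rfl)
      | abel

noncomputable def swapAlg : MonoidAlgebra P (SG ℕ) →ₐ[P] MonoidAlgebra P (SG ℕ) :=
  lift P _ _ (swapHom P)

theorem swapAlg_single (s : SG ℕ) : swapAlg P (single s 1) = swapFun P s := by
  rw [swapAlg, lift_single, one_smul]
  rfl

theorem swapAlg_invol : (swapAlg P).comp (swapAlg P) = AlgHom.id P _ := by
  apply MonoidAlgebra.algHom_ext
  · intro s
    simp only [AlgHom.comp_apply, AlgHom.id_apply, swapAlg_single]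
    cases s <;> simp only [swapFun, gEl, map_add, map_sub, swapAlg_single]
    abel
  · ext

noncomputable def swapEquiv : MonoidAlgebra P (SG ℕ) ≃ₐ[P] MonoidAlgebra P (SG ℕ) :=
  AlgEquiv.ofAlgHom (swapAlg P) (swapAlg P) (swapAlg_invol P) (swapAlg_invol P)

variable {B : Type} (j : ℕ → B) (hj : Function.Injective j)

noncomputable def incl : MonoidAlgebra P (SG ℕ) →ₐ[P] MonoidAlgebra P (SG B) :=
  mapDomainAlgHom P P (mapHom id j Function.injective_id hj)

theorem incl_single (s : SG ℕ) (c : P) : incl P j hj (single s c) = single (mapFun id j s) c := by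
  rw [incl, mapDomainAlgHom_apply, mapDomain_single]
  rfl

theorem incl_injective : Function.Injective (incl P j hj) :=
  mapDomain_injective (mapFun_injective id j Function.injective_id hj)

noncomputable def permAlg (q : Equiv.Perm B) :
    MonoidAlgebra P (SG B) ≃ₐ[P] MonoidAlgebra P (SG B) :=
  domCongr P P (mapEquiv 1 q)

theorem permAlg_single (q : Equiv.Perm B) (s : SG B) (c : P) :
    permAlg P q (single s c) = single (mapFun id q s) c := by
  simp only [permAlg, domCongr_single]
  rfl

theorem exists_move (x : MonoidAlgebra P (SG B)) : ∃ T : Set B, T.Finite ∧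
    ∀ q : Equiv.Perm B, (∀ t ∈ T, q t ∈ Set.range j) →
      permAlg P q x ∈ Set.range (incl P j hj) := by
  induction x using MonoidAlgebra.induction_linear with
  | zero => exact ⟨∅, Set.finite_empty, fun q _ => ⟨0, by rw [map_zero, map_zero]⟩⟩
  | add x y hx hy =>
    obtain ⟨T, hT, h2⟩ := hx
    obtain ⟨U, hU, g2⟩ := hy
    refine ⟨T ∪ U, hT.union hU, fun q hq => ?_⟩
    obtain ⟨u, hu⟩ := h2 q fun t ht => hq t (Or.inl ht)
    obtain ⟨v, hv⟩ := g2 q fun t ht => hq t (Or.inr ht)
    exact ⟨u + v, by rw [map_add, map_add, hu, hv]⟩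
  | single s c =>
    cases s with
    | b x =>
      refine ⟨{x}, Set.finite_singleton x, fun q hq => ?_⟩
      obtain ⟨n, hn⟩ := hq x rfl
      exact ⟨single (b n) c, by rw [incl_single, permAlg_single, mapFun, mapFun, hn]⟩
    | z => exact ⟨∅, Set.finite_empty,
        fun q _ => ⟨single z c, by rw [incl_single, permAlg_single]; rfl⟩⟩
    | one => exact ⟨∅, Set.finite_empty,
        fun q _ => ⟨single SG.one c, by rw [incl_single, permAlg_single]; rfl⟩⟩
    | f => exact ⟨∅, Set.finite_empty,
        fun q _ => ⟨single f c, by rw [incl_single, permAlg_single]; rfl⟩⟩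
    | a n => exact ⟨∅, Set.finite_empty,
        fun q _ => ⟨single (a n) c, by rw [incl_single, permAlg_single]; rfl⟩⟩

theorem exists_fix (y : MonoidAlgebra P (SG ℕ)) : ∃ T : Set ℕ, T.Finite ∧
    ∀ q : Equiv.Perm B, (∀ t ∈ T, q (j t) = j t) →
      permAlg P q (incl P j hj y) = incl P j hj y := by
  induction y using MonoidAlgebra.induction_linear with
  | zero => exact ⟨∅, Set.finite_empty, fun q _ => by rw [map_zero, map_zero]⟩
  | add x y hx hy =>
    obtain ⟨T, hT, h2⟩ := hx
    obtain ⟨U, hU, g2⟩ := hy
    refine ⟨T ∪ U, hT.union hU, fun q hq => ?_⟩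
    rw [map_add, map_add, h2 q fun t ht => hq t (Or.inl ht), g2 q fun t ht => hq t (Or.inr ht)]
  | single s c =>
    cases s with
    | b x =>
      refine ⟨{x}, Set.finite_singleton x, fun q hq => ?_⟩
      rw [incl_single, permAlg_single, mapFun, mapFun, hq x rfl]
    | z => exact ⟨∅, Set.finite_empty, fun q _ => by rw [incl_single, permAlg_single]; rfl⟩
    | one => exact ⟨∅, Set.finite_empty, fun q _ => by rw [incl_single, permAlg_single]; rfl⟩
    | f => exact ⟨∅, Set.finite_empty, fun q _ => by rw [incl_single, permAlg_single]; rfl⟩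
    | a n => exact ⟨∅, Set.finite_empty, fun q _ => by rw [incl_single, permAlg_single]; rfl⟩

include hj in
theorem exists_good_perm (T' : Set ℕ) (hT' : T'.Finite) (T : Set B) (hT : T.Finite) :
    ∃ q : Equiv.Perm B, (∀ t ∈ T', q (j t) = j t) ∧ ∀ t ∈ T, q t ∈ Set.range j := by
  classical
  obtain ⟨K, hK⟩ := hT'.bddAbove
  have hU : (j '' T' ∪ T).Finite := (hT'.image j).union hT
  have := hU.to_subtype
  obtain ⟨e, he⟩ := exists_injective_nat (j '' T' ∪ T : Set B)
  obtain ⟨q, hq⟩ := Equiv.Perm.exists_extending_pair (α := (j '' T' ∪ T : Set B)) Subtype.val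
    (fun u => if (u : B) ∈ j '' T' then (u : B) else j (K + 1 + e u)) Subtype.val_injective (by
      intro u v huv
      dsimp only at huv
      split_ifs at huv with h1 h2 h2
      · exact Subtype.ext huv
      · obtain ⟨t, ht, h⟩ := h1
        have := hj (h.trans huv)
        have := hK ht
        omega
      · obtain ⟨t, ht, h⟩ := h2
        have := hj (h.trans huv.symm)
        have := hK ht
        omega
      · have := hj huv
        exact he (by omega))
  refine ⟨q, fun t ht => ?_, fun t ht => ?_⟩
  · have := hq ⟨j t, Or.inl ⟨t, ht, rfl⟩⟩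
    rwa [if_pos ⟨t, ht, rfl⟩] at this
  · have := hq ⟨t, Or.inr ht⟩
    rw [this]
    split_ifs with h
    · obtain ⟨u, -, hu⟩ := h
      exact ⟨u, hu⟩
    · exact ⟨_, rfl⟩

theorem incl_elementary {n : ℕ} (φ : (algebraLang P).Formula (Fin n))
    (x : Fin n → MonoidAlgebra P (SG ℕ)) :
    @Formula.Realize _ _ (algebraStr P (MonoidAlgebra P (SG B))) _ φ (incl P j hj ∘ x) ↔
      @Formula.Realize _ _ (algebraStr P (MonoidAlgebra P (SG ℕ))) _ φ x := by
  let _ := algebraStr P (MonoidAlgebra P (SG B))
  let _ := algebraStr P (MonoidAlgebra P (SG ℕ))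
  refine (embOfAlgHom (incl P j hj) (incl_injective P j hj)).isElementary_of_exists ?_ φ x
  intro m ψ y w hw
  choose T' hT' hfix using fun i => exists_fix P j hj (y i)
  obtain ⟨T, hT, hmove⟩ := exists_move P j hj w
  obtain ⟨q, hq1, hq2⟩ := exists_good_perm j hj (⋃ i, T' i) (Set.finite_iUnion hT') T hT
  obtain ⟨u, hu⟩ := hmove q hq2
  refine ⟨u, ?_⟩
  have key := (StrongHomClass.realize_boundedFormula (equivOfAlgEquiv (permAlg P q)) ψ).2 hw
  refine (iff_of_eq (congrArg₂ (BoundedFormula.Realize ψ) (Subsingleton.elim _ _) ?_)).2 key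
  · ext1 i
    refine Fin.lastCases ?_ (fun i => ?_) i
    · simp only [Fin.snoc_last, Function.comp_apply]
      exact hu
    · simp only [Fin.snoc_castSucc, Function.comp_apply]
      exact (hfix i q fun t ht => hq1 t (Set.mem_iUnion.2 ⟨i, ht⟩)).symm

include hj in
theorem same_type (φ : (algebraLang P).Formula (Fin 1)) :
    @Formula.Realize _ _ (algebraStr P (MonoidAlgebra P (SG B))) _ φ (fun _ => single f 1) ↔
      @Formula.Realize _ _ (algebraStr P (MonoidAlgebra P (SG B))) _ φ (fun _ => gEl P B) := by
  let _ := algebraStr P (MonoidAlgebra P (SG ℕ))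
  have e1 := incl_elementary P j hj φ (fun _ => single f 1)
  have e2 := incl_elementary P j hj φ (fun _ => gEl P ℕ)
  have e3 := StrongHomClass.realize_formula (equivOfAlgEquiv (swapEquiv P)) φ
    (v := fun _ => single f 1)
  have a1 : incl P j hj ∘ (fun _ : Fin 1 => single f 1) = fun _ => single f 1 := by
    ext1 i
    exact incl_single ..
  have a2 : incl P j hj ∘ (fun _ : Fin 1 => gEl P ℕ) = fun _ => gEl P B := by
    ext1 i
    simp only [Function.comp_apply, gEl, map_add, map_sub, incl_single]
    rfl
  have a3 : (equivOfAlgEquiv (swapEquiv P)) ∘ (fun _ : Fin 1 => single f 1) =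
      fun _ => gEl P ℕ := by
    ext1 i
    exact swapAlg_single P f
  rw [a1] at e1
  rw [a2] at e2
  rw [a3] at e3
  exact e1.trans (e3.symm.trans e2.symm)

theorem not_homogeneous [Uncountable B] :
    ¬ LogicallyHomogeneous (algebraLang P) (MonoidAlgebra P (SG B))
      (algebraStr P (MonoidAlgebra P (SG B))) := by
  let _ := algebraStr P (MonoidAlgebra P (SG B))
  intro h
  obtain ⟨σ, hσ⟩ := (h 1 _ _).1
    (same_type P (Infinite.natEmbedding B) (Infinite.natEmbedding B).injective)
  have hf : σ (single f 1) = gEl P B := (congrFun hσ 0).symm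
  have hadd : ∀ x y, σ (x + y) = σ x + σ y := fun x y =>
    σ.map_fun (show (algebraLang P).Functions 2 from AlgebraFunc.add) ![x, y]
  have hmul : ∀ x y, σ (x * y) = σ x * σ y := fun x y =>
    σ.map_fun (show (algebraLang P).Functions 2 from AlgebraFunc.mul) ![x, y]
  have hsmul : ∀ (c : P) x, σ (c • x) = c • σ x := fun c x =>
    σ.map_fun (show (algebraLang P).Functions 1 from AlgebraFunc.smul c) ![x]
  let U : Set (SG B) := (σ (single z 1)).coeff.support ∪ (σ (single f 1)).coeff.support ∪
    ⋃ n : ℕ, (σ (single (a n) 1)).coeff.support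
  have hU : U.Countable :=
    ((Finset.countable_toSet _).union (Finset.countable_toSet _)).union
      (Set.countable_iUnion fun n => Finset.countable_toSet _)
  have key : ∀ x, ∀ s ∉ U, (σ (single f 1 * x)).coeff s = 0 := by
    intro x s hs
    simp only [U, Set.mem_union, Set.mem_iUnion, Finset.mem_coe, Finsupp.mem_support_iff, not_or,
      not_exists, not_not] at hs
    induction x using MonoidAlgebra.induction_on with
    | of m =>
      rw [of_apply, single_mul_single, mul_one]
      cases m
      · exact hs.1.1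
      · exact hs.1.2
      · exact hs.1.2
      · exact hs.2 _
      · exact hs.1.1
    | add x y hx hy => rw [mul_add, hadd, coeff_add, Finsupp.add_apply, hx, hy, add_zero]
    | smul c x hx => rw [mul_smul_comm, hsmul, coeff_smul, Finsupp.smul_apply, hx, smul_zero]
  have hb : ∀ x : B, b x ∈ U := by
    intro x
    by_contra hx
    have e := key (σ.symm (single (b x) 1)) _ hx
    rw [hmul, hf, σ.apply_symm_apply] at e
    simp [gEl, add_mul, sub_mul, single_mul_single, SG.mul_def, SG.mul] at e
  have : (Set.univ : Set B).Countable :=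
    (hU.preimage (f := fun x : B => (b x : SG B)) fun _ _ h => b.inj h).mono fun x _ => hb x
  exact Set.not_countable_univ this

end Pool.Agent.MP_c05c30_lc
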