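import Mathlib

namespace Pool.Agent.MP_c05c30_lc

open FirstOrder

/-- The structure `str` on `H` is logically homogeneous: two tuples have the same first-order type
iff they are conjugate under an automorphism. -/
def LogicallyHomogeneous (L : Language) (H : Type) (str : L.Structure H) : Prop :=
  ∀ (n : ℕ) (μ ν : Fin n → H),
    (∀ φ : L.Formula (Fin n), φ.Realize μ ↔ φ.Realize ν) ↔ ∃ σ : H ≃[L] H, ν = σ ∘ μ

/-- The function symbol of the language of semigroups. -/
inductive SemigroupFunc : ℕ → Type
  | mul : SemigroupFunc 2

/-- The language of semigroups. -/
def semigroupLang : Language := ⟨SemigroupFunc, fun _ => Empty⟩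

/-- A semigroup as a structure in the language of semigroups. -/
@[reducible] def semigroupStr (S : Type) [Semigroup S] : semigroupLang.Structure S where
  funMap := fun {n} f => match n, f with
    | _, .mul => fun x => x 0 * x 1
  RelMap := fun r => r.elim

/-- The function symbols of the language of associative `P`-algebras. -/
inductive AlgebraFunc (P : Type) : ℕ → Type
  | add : AlgebraFunc P 2
  | mul : AlgebraFunc P 2
  | neg : AlgebraFunc P 1
  | zero : AlgebraFunc P 0
  | smul (c : P) : AlgebraFunc P 1

/-- The language of associative `P`-algebras. -/
def algebraLang (P : Type) : Language := ⟨AlgebraFunc P, fun _ => Empty⟩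

/-- An associative `P`-algebra as a structure in the language of `P`-algebras. -/
@[reducible] def algebraStr (P A : Type) [Field P] [NonUnitalRing A] [Module P A] :
    (algebraLang P).Structure A where
  funMap := fun {n} f => match n, f with
    | _, .add => fun x => x 0 + x 1
    | _, .mul => fun x => x 0 * x 1
    | _, .neg => fun x => -x 0
    | _, .zero => fun _ => 0
    | _, .smul c => fun x => c • x 0
  RelMap := fun r => r.elim

end Pool.Agent.MP_c05c30_lc
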