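import Pool.Agent.MP_c05c30_lc.Defs

set_option linter.constructorNameAsVariable false

namespace Pool.Agent.MP_c05c30_lc

open FirstOrder FirstOrder.Language

inductive SG (B : Type) : Type
  | z : SG B
  | one : SG B
  | f : SG B
  | a (n : ℕ) : SG B
  | b (x : B) : SG B

namespace SG

variable {B C : Type}

open Classical in
noncomputable def mul : SG B → SG B → SG B
  | z, _ => z
  | one, y => y
  | f, z => z
  | f, one => f
  | f, f => f
  | f, a n => a n
  | f, b _ => z
  | a _, z => z
  | a n, one => a n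
  | a n, f => a n
  | a n, a m => if n = m then a n else z
  | a _, b _ => z
  | b _, z => z
  | b x, one => b x
  | b _, f => z
  | b _, a _ => z
  | b x, b y => if x = y then b x else z

noncomputable instance : Monoid (SG B) where
  mul := mul
  one := one
  one_mul _ := rfl
  mul_one x := by cases x <;> rfl
  mul_assoc x y w := by
    change mul (mul x y) w = mul x (mul y w)
    cases x <;> cases y <;> cases w <;> simp only [mul] <;> split_ifs <;> simp_all

theorem mul_def (x y : SG B) : x * y = mul x y := rfl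
theorem one_def : (1 : SG B) = one := rfl

def mapFun (p : ℕ → ℕ) (q : B → C) : SG B → SG C
  | z => z
  | one => one
  | f => f
  | a n => a (p n)
  | b x => b (q x)

def mapHom (p : ℕ → ℕ) (q : B → C) (hp : Function.Injective p) (hq : Function.Injective q) :
    SG B →* SG C where
  toFun := mapFun p q
  map_one' := rfl
  map_mul' x y := by
    cases x <;> cases y <;> simp only [mul_def, mul, mapFun, hp.eq_iff, hq.eq_iff] <;>
      split_ifs <;> simp_all [hq.eq_iff]

theorem mapFun_injective (p : ℕ → ℕ) (q : B → C) (hp : Function.Injective p)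
    (hq : Function.Injective q) : Function.Injective (mapFun p q) := by
  intro x y h
  cases x <;> cases y <;> simp_all [mapFun, hp.eq_iff, hq.eq_iff]

def mapEquiv (p : Equiv.Perm ℕ) (q : Equiv.Perm B) : SG B ≃* SG B where
  toFun := mapFun p q
  invFun := mapFun p.symm q.symm
  left_inv x := by cases x <;> simp [mapFun]
  right_inv x := by cases x <;> simp [mapFun]
  map_mul' := (mapHom p q p.injective q.injective).map_mul

end SG

theorem exists_perm {ι X : Type} [Finite ι] (μ ν : ι → X) (h : ∀ i j, μ i = μ j ↔ ν i = ν j) :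
    ∃ π : Equiv.Perm X, ∀ i, π (μ i) = ν i := by
  obtain ⟨π, hπ⟩ := Equiv.Perm.exists_extending_pair (α := Set.range μ) Subtype.val
    (fun x => ν x.2.choose) Subtype.val_injective (by
      intro x y hxy
      have := (h _ _).2 hxy
      rw [x.2.choose_spec, y.2.choose_spec] at this
      exact Subtype.ext this)
  refine ⟨π, fun i => ?_⟩
  have := hπ ⟨μ i, i, rfl⟩
  rw [this]
  exact (h _ _).1 (Exists.choose_spec (⟨i, rfl⟩ : μ i ∈ Set.range μ))

section formulas

abbrev mulSym : semigroupLang.Functions 2 := SemigroupFunc.mul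

variable {α : Type}

def tm {n : ℕ} (s t : semigroupLang.Term (α ⊕ Fin n)) : semigroupLang.Term (α ⊕ Fin n) :=
  mulSym.apply₂ s t

def fZ (i : α) : semigroupLang.Formula α :=
  ∀' ((tm (Term.var (Sum.inl i)) &0) =' Term.var (Sum.inl i))

def fO (i : α) : semigroupLang.Formula α :=
  ∀' ((tm (Term.var (Sum.inl i)) &0) =' &0)

def fBelow (i : α) : semigroupLang.Formula α :=
  ∃' ∃' (((tm (Term.var (Sum.inl i)) &0) =' &0) ⊓ ((tm (Term.var (Sum.inl i)) &1) =' &1) ⊓
    ∼ (&0 =' &1) ⊓ ∼ (&0 =' Term.var (Sum.inl i)) ⊓ ∼ (&1 =' Term.var (Sum.inl i)))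

def fAbove (i : α) : semigroupLang.Formula α :=
  ∃' ∃' (((tm &0 (Term.var (Sum.inl i))) =' Term.var (Sum.inl i)) ⊓
    ((tm &1 (Term.var (Sum.inl i))) =' Term.var (Sum.inl i)) ⊓
    ∼ (&0 =' &1) ⊓ ∼ (&0 =' Term.var (Sum.inl i)) ⊓ ∼ (&1 =' Term.var (Sum.inl i)))

variable {S : Type} [Semigroup S]

theorem funMap_mul (x : Fin 2 → S) :
    @Structure.funMap _ _ (semigroupStr S) 2 mulSym x = x 0 * x 1 := rfl

theorem real_fZ (i : α) (v : α → S) :
    @Formula.Realize _ _ (semigroupStr S) _ (fZ i) v ↔ ∀ y, v i * y = v i := by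
  let _ := semigroupStr S
  simp [fZ, tm, Formula.Realize, funMap_mul, Fin.snoc]

theorem real_fO (i : α) (v : α → S) :
    @Formula.Realize _ _ (semigroupStr S) _ (fO i) v ↔ ∀ y, v i * y = y := by
  let _ := semigroupStr S
  simp [fO, tm, Formula.Realize, funMap_mul, Fin.snoc]

theorem real_fBelow (i : α) (v : α → S) :
    @Formula.Realize _ _ (semigroupStr S) _ (fBelow i) v ↔
      ∃ y w, v i * y = y ∧ v i * w = w ∧ y ≠ w ∧ y ≠ v i ∧ w ≠ v i := by
  let _ := semigroupStr S
  simp [fBelow, tm, Formula.Realize, funMap_mul, Fin.snoc, and_assoc]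

theorem real_fAbove (i : α) (v : α → S) :
    @Formula.Realize _ _ (semigroupStr S) _ (fAbove i) v ↔
      ∃ y w, y * v i = v i ∧ w * v i = v i ∧ y ≠ w ∧ y ≠ v i ∧ w ≠ v i := by
  let _ := semigroupStr S
  simp [fAbove, tm, Formula.Realize, funMap_mul, Fin.snoc, and_assoc]

end formulas

namespace SG

variable {B : Type}

theorem isZ (x : SG B) : (∀ y, x * y = x) ↔ x = z := by
  refine ⟨fun h => ?_, fun h y => by subst h; rfl⟩
  have := h z
  cases x <;> simp_all [mul_def, mul]

theorem isO (x : SG B) : (∀ y, x * y = y) ↔ x = one := by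
  refine ⟨fun h => ?_, fun h y => by subst h; rfl⟩
  have := h one
  cases x <;> simp_all [mul_def, mul]

theorem isBelow (x : SG B) :
    (∃ y w, x * y = y ∧ x * w = w ∧ y ≠ w ∧ y ≠ x ∧ w ≠ x) ↔ x = one ∨ x = f := by
  constructor
  · rintro ⟨y, w, h1, h2, h3, h4, h5⟩
    cases x <;> cases y <;> cases w <;> simp_all [mul_def, mul] <;> split_ifs at * <;> simp_all
  · rintro (rfl | rfl) <;> exact ⟨z, a 0, rfl, rfl, by simp, by simp, by simp⟩

theorem isAbove (x : SG B) :
    (∃ y w, y * x = x ∧ w * x = x ∧ y ≠ w ∧ y ≠ x ∧ w ≠ x) ↔ x = z ∨ ∃ n, x = a n := by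
  constructor
  · rintro ⟨y, w, h1, h2, h3, h4, h5⟩
    cases x <;> cases y <;> cases w <;> simp_all [mul_def, mul]
  · rintro (rfl | ⟨n, rfl⟩) <;> exact ⟨one, f, rfl, rfl, by simp, by simp, by simp⟩

theorem homogeneous : LogicallyHomogeneous semigroupLang (SG B) (semigroupStr (SG B)) := by
  let _ := semigroupStr (SG B)
  intro n μ ν
  refine ⟨fun h => ?_, ?_⟩
  swap
  · rintro ⟨σ, rfl⟩ φ
    exact (StrongHomClass.realize_formula σ φ).symm
  have hZ : ∀ i, μ i = z ↔ ν i = z := fun i => by
    rw [← isZ, ← isZ, ← real_fZ, ← real_fZ]; exact h _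
  have hO : ∀ i, μ i = one ↔ ν i = one := fun i => by
    rw [← isO, ← isO, ← real_fO, ← real_fO]; exact h _
  have hB : ∀ i, (μ i = one ∨ μ i = f) ↔ (ν i = one ∨ ν i = f) := fun i => by
    rw [← isBelow, ← isBelow, ← real_fBelow, ← real_fBelow]; exact h _
  have hA : ∀ i, (μ i = z ∨ ∃ n, μ i = a n) ↔ (ν i = z ∨ ∃ n, ν i = a n) := fun i => by
    rw [← isAbove, ← isAbove, ← real_fAbove, ← real_fAbove]; exact h _
  have hE : ∀ i j, μ i = μ j ↔ ν i = ν j := fun i j => by
    simpa using h ((Term.var i).equal (Term.var j))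
  have eA : ∀ i, (∃ n, μ i = a n) → ∃ n, ν i = a n := by
    rintro i ⟨m, hm⟩
    rcases (hA i).1 (Or.inr ⟨m, hm⟩) with h1 | h1
    · have := (hZ i).2 h1
      simp [hm] at this
    · exact h1
  have eB : ∀ i, (∃ x, μ i = b x) → ∃ x, ν i = b x := by
    rintro i ⟨x, hx⟩
    have h1 := hB i
    have h2 := hA i
    cases hν : ν i <;> simp_all
  obtain ⟨p, hp⟩ := exists_perm (ι := {i // ∃ n, μ i = a n}) (fun i => i.2.choose)
    (fun i => (eA i i.2).choose) (fun i j => by
      have := hE i j
      rw [i.2.choose_spec, j.2.choose_spec, (eA i i.2).choose_spec, (eA j j.2).choose_spec] at this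
      simpa using this)
  obtain ⟨q, hq⟩ := exists_perm (ι := {i // ∃ x, μ i = b x}) (fun i => i.2.choose)
    (fun i => (eB i i.2).choose) (fun i j => by
      have := hE i j
      rw [i.2.choose_spec, j.2.choose_spec, (eB i i.2).choose_spec, (eB j j.2).choose_spec] at this
      simpa using this)
  refine ⟨{ toEquiv := (mapEquiv p q).toEquiv
            map_fun' := fun {k} g x => by
              cases g
              exact (mapEquiv p q).map_mul _ _
            map_rel' := fun r => r.elim }, ?_⟩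
  ext i
  change ν i = mapFun p q (μ i)
  cases hμ : μ i with
  | z => exact (hZ i).1 hμ
  | one => exact (hO i).1 hμ
  | f =>
    rcases (hB i).1 (Or.inr hμ) with h1 | h1
    · have := (hO i).2 h1
      simp [hμ] at this
    · exact h1
  | a m =>
    have e1 := hp ⟨i, m, hμ⟩
    have e2 := Exists.choose_spec (⟨m, hμ⟩ : ∃ n, μ i = a n)
    have e3 := (eA i ⟨m, hμ⟩).choose_spec
    rw [e3, ← e1]
    have : m = Exists.choose (⟨m, hμ⟩ : ∃ n, μ i = a n) := by
      exact a.inj (hμ.symm.trans e2)
    exact congrArg (fun t => mapFun p q (a t)) this.symm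
  | b x =>
    have e1 := hq ⟨i, x, hμ⟩
    have e2 := Exists.choose_spec (⟨x, hμ⟩ : ∃ n, μ i = b n)
    have e3 := (eB i ⟨x, hμ⟩).choose_spec
    rw [e3, ← e1]
    have : x = Exists.choose (⟨x, hμ⟩ : ∃ n, μ i = b n) := by
      exact b.inj (hμ.symm.trans e2)
    exact congrArg (fun t => mapFun p q (b t)) this.symm

end SG

theorem zmod2_homogeneous :
    LogicallyHomogeneous Language.ring (ZMod 2)
      (Ring.compatibleRingOfRing (ZMod 2)).toStructure := by
  let _ := Ring.compatibleRingOfRing (ZMod 2)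
  intro n μ ν
  refine ⟨fun h => ⟨Language.Equiv.refl _ _, ?_⟩, ?_⟩
  · ext i
    have := h ((Term.var i).equal 0)
    simp only [Formula.realize_equal, Term.realize_var, Ring.realize_zero] at this
    change ν i = μ i
    generalize μ i = x at this
    generalize ν i = y at this
    revert x y
    decide
  · rintro ⟨σ, rfl⟩ φ
    exact (StrongHomClass.realize_formula σ φ).symm

end Pool.Agent.MP_c05c30_lc
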